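import Mathlib

/-!
# Flag spheres with few vertices: combinatorics

`Sp G n S`: the full subcomplex of the flag complex of `G` on the finite set `S` looks like a sphere of
dimension `n - 1`: links of vertices are in the class `n - 1`, and the vertices of `S` not adjacent to a
given vertex span a nonempty connected graph.
-/

set_option autoImplicit false

namespace Pool.Agent.W5h83.FS

open Finset Classical

variable {V : Type} (G : SimpleGraph V)

/-- the neighbours of `v` in `S` -/
noncomputable def nb (S : Finset V) (v : V) : Finset V := S.filter (fun x => G.Adj v x)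

/-- the non-neighbours of `v` in `S` -/
noncomputable def mn (S : Finset V) (v : V) : Finset V := S.filter (fun x => x ≠ v ∧ ¬ G.Adj v x)

/-- the graph spanned by `T` is connected -/
def Conn (T : Finset V) : Prop :=
  ∀ C ⊆ T, C.Nonempty → C ≠ T → ∃ c ∈ C, ∃ d ∈ T, d ∉ C ∧ G.Adj c d

/-- sphere-like sets of vertices -/
def Sp : ℕ → Finset V → Prop
  | 0, S => S = ∅
  | n + 1, S => S.Nonempty ∧ ∀ v ∈ S, Sp n (nb G S v) ∧ (mn G S v).Nonempty ∧ Conn G (mn G S v)

/-- the poles: vertices with exactly one non-neighbour -/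
noncomputable def pl (S : Finset V) : Finset V := S.filter (fun v => (mn G S v).card = 1)

variable {G}

theorem mem_nb {S : Finset V} {v x : V} : x ∈ nb G S v ↔ x ∈ S ∧ G.Adj v x := by
  rw [nb, mem_filter]

theorem mem_mn {S : Finset V} {v x : V} : x ∈ mn G S v ↔ x ∈ S ∧ x ≠ v ∧ ¬ G.Adj v x := by
  rw [mn, mem_filter]

theorem mem_pl {S : Finset V} {v : V} : v ∈ pl G S ↔ v ∈ S ∧ (mn G S v).card = 1 := by
  rw [pl, mem_filter]

theorem card_split {S : Finset V} {v : V} (hv : v ∈ S) :
    S.card = (nb G S v).card + (mn G S v).card + 1 := by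
  have h1 : S = insert v (nb G S v ∪ mn G S v) := by
    ext x
    rw [mem_insert, mem_union, mem_nb, mem_mn]
    constructor
    · intro hx
      by_cases h1 : x = v
      · exact Or.inl h1
      · by_cases h2 : G.Adj v x
        · exact Or.inr (Or.inl ⟨hx, h2⟩)
        · exact Or.inr (Or.inr ⟨hx, h1, h2⟩)
    · rintro (rfl | ⟨h, _⟩ | ⟨h, _⟩)
      · exact hv
      · exact h
      · exact h
  have h2 : v ∉ nb G S v ∪ mn G S v := by
    rw [mem_union, mem_nb, mem_mn]
    rintro (⟨_, h⟩ | ⟨_, h, _⟩)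
    · exact G.irrefl h
    · exact h rfl
  have h3 : Disjoint (nb G S v) (mn G S v) := by
    rw [Finset.disjoint_left]
    intro x hx hx'
    exact (mem_mn.1 hx').2.2 (mem_nb.1 hx).2
  conv_lhs => rw [h1]
  rw [card_insert_of_notMem h2, card_union_of_disjoint h3]

/-- a nonempty sphere-like set has positive dimension parameter -/
theorem Sp.pos {n : ℕ} {S : Finset V} (h : Sp G n S) {x : V} (hx : x ∈ S) : ∃ m, n = m + 1 := by
  cases n with
  | zero =>
    have h1 : S = ∅ := h
    rw [h1] at hx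
    exact absurd hx (notMem_empty x)
  | succ m => exact ⟨m, rfl⟩

theorem Sp.nb {n : ℕ} {S : Finset V} (h : Sp G (n + 1) S) {v : V} (hv : v ∈ S) : Sp G n (nb G S v) :=
  (h.2 v hv).1

theorem Sp.ne {n : ℕ} {S : Finset V} (h : Sp G n S) {v : V} (hv : v ∈ S) : (mn G S v).Nonempty := by
  obtain ⟨m, rfl⟩ := h.pos hv
  exact (h.2 v hv).2.1

theorem Sp.conn {n : ℕ} {S : Finset V} (h : Sp G n S) {v : V} (hv : v ∈ S) : Conn G (mn G S v) := by
  obtain ⟨m, rfl⟩ := h.pos hv
  exact (h.2 v hv).2.2

/-- neighbours `x` of `c` are adjacent to some non-neighbour of `c` -/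
theorem Sp.ex_nb {n : ℕ} {S : Finset V} (h : Sp G n S) {c x : V} (hc : c ∈ S) (hx : x ∈ S)
    (hcx : G.Adj c x) : ∃ z ∈ mn G S c, G.Adj z x := by
  obtain ⟨m, rfl⟩ := h.pos hx
  have h1 : c ∈ FS.nb G S x := mem_nb.2 ⟨hc, hcx.symm⟩
  obtain ⟨z, hz⟩ := (h.nb hx).ne h1
  rw [mem_mn, mem_nb] at hz
  exact ⟨z, mem_mn.2 ⟨hz.1.1, hz.2⟩, hz.1.2.symm⟩

/-- the antipode of a pole is a pole -/
theorem sym_pole {n : ℕ} {S : Finset V} (h : Sp G n S) {c d : V} (hc : c ∈ S)
    (hcd : mn G S c = {d}) : mn G S d = {c} := by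
  have hd : d ∈ S ∧ d ≠ c ∧ ¬ G.Adj c d := mem_mn.1 (hcd ▸ mem_singleton_self d)
  ext y
  rw [mem_singleton, mem_mn]
  constructor
  · rintro ⟨hyS, hyd, hdy⟩
    by_contra hyc
    have h1 : G.Adj c y := by
      by_contra h2
      have h3 : y ∈ mn G S c := mem_mn.2 ⟨hyS, hyc, h2⟩
      rw [hcd, mem_singleton] at h3
      exact hyd h3
    obtain ⟨z, hz, hzy⟩ := h.ex_nb hc hyS h1
    rw [hcd, mem_singleton] at hz
    rw [hz] at hzy
    exact hdy hzy
  · rintro rfl
    exact ⟨hc, hd.2.1.symm, fun h => hd.2.2 h.symm⟩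

/-- **Key lemma.** If no vertex is a pole then some link has at most one pair of poles. -/
theorem key {n : ℕ} {S : Finset V} (h : Sp G (n + 1) S) (hm : ∀ v ∈ S, 2 ≤ (mn G S v).card) :
    ∃ v ∈ S, (pl G (nb G S v)).card ≤ 2 := by
  by_contra hcon
  push Not at hcon
  -- the set of the vertices which are poles of a link
  set T : Finset V := S.filter (fun a => ∃ v ∈ S, a ∈ pl G (nb G S v)) with hT
  have hTne : T.Nonempty := by
    obtain ⟨v, hv⟩ := h.1
    have h1 : (pl G (nb G S v)).Nonempty := by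
      rw [← card_pos]
      have := hcon v hv
      omega
    obtain ⟨a, ha⟩ := h1
    exact ⟨a, mem_filter.2 ⟨(mem_nb.1 (mem_pl.1 ha).1).1, v, hv, ha⟩⟩
  obtain ⟨a, haT, hmin⟩ := exists_min_image T (fun a => (mn G S a).card) hTne
  obtain ⟨haS, v, hv, hav⟩ := mem_filter.1 haT
  obtain ⟨ha1, ha2⟩ := mem_pl.1 hav
  obtain ⟨b, hb⟩ := card_eq_one.1 ha2
  have hva : G.Adj v a := (mem_nb.1 ha1).2
  have hbb : b ∈ nb G S v ∧ b ≠ a ∧ ¬ G.Adj a b := mem_mn.1 (hb ▸ mem_singleton_self b)
  have hb' : mn G (nb G S v) b = {a} := sym_pole (h.nb hv) ha1 hb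
  have hva' : v ∈ nb G S a := mem_nb.2 ⟨hv, hva.symm⟩
  -- choose a pole `c` of the link of `a` different from `v` and its antipode
  obtain ⟨v', hv'⟩ : ∃ v' : V, ∀ c, mn G (nb G S a) v = {c} → v' = c := by
    by_cases h1 : ∃ c, mn G (nb G S a) v = {c}
    · obtain ⟨c, hc⟩ := h1
      exact ⟨c, fun c' hc' => by rw [hc] at hc'; exact singleton_injective hc'⟩
    · exact ⟨v, fun c hc => absurd ⟨c, hc⟩ h1⟩
  have h3 : ∃ c ∈ pl G (nb G S a), c ≠ v ∧ c ≠ v' := by
    by_contra h4
    push Not at h4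
    have h5 : pl G (nb G S a) ⊆ {v, v'} := by
      intro c hc
      rw [mem_insert, mem_singleton]
      by_cases h6 : c = v
      · exact Or.inl h6
      · exact Or.inr (h4 c hc h6)
    have h6 := (card_le_card h5).trans (card_le_two)
    have h7 := hcon a haS
    omega
  obtain ⟨c, hcp, hcv, hcv'⟩ := h3
  obtain ⟨hc1, hc2⟩ := mem_pl.1 hcp
  obtain ⟨d, hd⟩ := card_eq_one.1 hc2
  have hdd : d ∈ nb G S a ∧ d ≠ c ∧ ¬ G.Adj c d := mem_mn.1 (hd ▸ mem_singleton_self d)
  have hd' : mn G (nb G S a) d = {c} := sym_pole (h.nb haS) hc1 hd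
  have hdv : d ≠ v := by
    rintro rfl
    exact hcv' (hv' c hd').symm
  have hcS : c ∈ S := (mem_nb.1 hc1).1
  have hac : G.Adj a c := (mem_nb.1 hc1).2
  have hdS : d ∈ S := (mem_nb.1 hdd.1).1
  have had : G.Adj a d := (mem_nb.1 hdd.1).2
  -- both are adjacent to `v`
  have hcv2 : G.Adj c v := by
    by_contra h4
    have h5 : v ∈ mn G (nb G S a) c := mem_mn.2 ⟨hva', hcv.symm, h4⟩
    rw [hd, mem_singleton] at h5
    exact hdv h5.symm
  have hdv2 : G.Adj d v := by
    by_contra h4
    have h5 : v ∈ mn G (nb G S a) d := mem_mn.2 ⟨hva', hdv.symm, h4⟩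
    rw [hd', mem_singleton] at h5
    exact hcv h5.symm
  -- both are adjacent to `b`
  have adjb : ∀ e ∈ S, G.Adj a e → G.Adj e v → G.Adj b e := by
    intro e heS hae hev
    by_contra h4
    have h5 : e ≠ b := by
      rintro rfl
      exact hbb.2.2 hae
    have h6 : e ∈ mn G (nb G S v) b := mem_mn.2 ⟨mem_nb.2 ⟨heS, hev.symm⟩, h5, h4⟩
    rw [hb', mem_singleton] at h6
    rw [h6] at hae
    exact G.irrefl hae
  have hbc : G.Adj b c := adjb c hcS hac hcv2
  have hbd : G.Adj b d := adjb d hdS had hdv2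
  have hbS : b ∈ S := (mem_nb.1 hbb.1).1
  have hbM : b ∈ mn G S a := mem_mn.2 ⟨hbS, hbb.2.1, hbb.2.2⟩
  -- the non-neighbours of `c` and `d`
  have sub : ∀ e f : V, G.Adj a e → mn G (nb G S a) e = {f} → G.Adj b e →
      mn G S e ⊆ insert f ((mn G S a).erase b) := by
    intro e f hae hef hbe x hx
    obtain ⟨hxS, hxe, hex⟩ := mem_mn.1 hx
    rw [mem_insert]
    by_cases hxf : x = f
    · exact Or.inl hxf
    · right
      have h4 : ¬ G.Adj a x := by
        intro h5
        have h6 : x ∈ mn G (nb G S a) e := mem_mn.2 ⟨mem_nb.2 ⟨hxS, h5⟩, hxe, hex⟩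
        rw [hef, mem_singleton] at h6
        exact hxf h6
      refine mem_erase.2 ⟨?_, mem_mn.2 ⟨hxS, ?_, h4⟩⟩
      · rintro rfl
        exact hex hbe.symm
      · rintro rfl
        exact hex hae.symm
  have hcard : ((mn G S a).erase b).card + 1 = (mn G S a).card := card_erase_add_one hbM
  have eqs : ∀ e f : V, e ∈ pl G (nb G S a) → G.Adj a e → mn G (nb G S a) e = {f} → G.Adj b e →
      mn G S e = insert f ((mn G S a).erase b) := by
    intro e f hep hae hef hbe
    refine eq_of_subset_of_card_le (sub e f hae hef hbe) ?_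
    have h4 : e ∈ T := mem_filter.2 ⟨(mem_nb.1 (mem_pl.1 hep).1).1, a, haS, hep⟩
    have h5 := hmin e h4
    have h6 := card_insert_le f ((mn G S a).erase b)
    omega
  have hc3 := eqs c d hcp hac hd hbc
  have hdp : d ∈ pl G (nb G S a) := mem_pl.2 ⟨hdd.1, by rw [hd', card_singleton]⟩
  have hd3 := eqs d c hdp had hd' hbd
  -- the contradiction
  have hne : ((mn G S a).erase b).Nonempty := by
    rw [← card_pos]
    have := hm a haS
    omega
  obtain ⟨y, hy⟩ := hne
  have hdM : d ∉ (mn G S a).erase b := by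
    intro h4
    exact (mem_mn.1 (mem_of_mem_erase h4)).2.2 had
  have h4 := h.conn hcS {d} (by
    rw [singleton_subset_iff, hc3]
    exact mem_insert_self _ _) (singleton_nonempty d) (by
    intro h5
    have h6 : y ∈ mn G S c := by
      rw [hc3]
      exact mem_insert_of_mem hy
    rw [← h5, mem_singleton] at h6
    rw [h6] at hy
    exact hdM hy)
  obtain ⟨d', hd1, z, hz1, hz2, hadj⟩ := h4
  rw [mem_singleton] at hd1
  rw [hd1] at hadj
  rw [hc3, mem_insert] at hz1
  rw [mem_singleton] at hz2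
  have hz3 : z ∈ (mn G S a).erase b := by
    rcases hz1 with h5 | h5
    · exact absurd h5 hz2
    · exact h5
  have h5 : z ∈ mn G S d := by
    rw [hd3]
    exact mem_insert_of_mem hz3
  exact (mem_mn.1 h5).2.2 hadj

/-- **Lower bound for the number of vertices.** -/
theorem bound : ∀ (n : ℕ) (S : Finset V), Sp G n S →
    10 * n ≤ (pl G S).card + 4 * S.card ∧
      ((∀ v ∈ S, 3 ≤ (mn G S v).card) → 1 ≤ n → 5 * n + 2 ≤ 2 * S.card) := by
  intro n
  induction n with
  | zero => intro S _; exact ⟨by omega, fun _ h => by omega⟩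
  | succ n ih =>
    intro S h
    by_cases hp : ∃ v, v ∈ pl G S
    · obtain ⟨v, hv⟩ := hp
      obtain ⟨hvS, hv1⟩ := mem_pl.1 hv
      refine ⟨?_, fun h3 => by have := h3 v hvS; omega⟩
      obtain ⟨v', hv'⟩ := card_eq_one.1 hv1
      have hv2 : v' ∈ S ∧ v' ≠ v ∧ ¬ G.Adj v v' := mem_mn.1 (hv' ▸ mem_singleton_self v')
      have hsym : mn G S v' = {v} := sym_pole h hvS hv'
      have h1 := (ih (nb G S v) (h.nb hvS)).1
      have h2 := card_split (G := G) hvS
      have hsub : insert v (insert v' (pl G (nb G S v))) ⊆ pl G S := by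
        intro x hx
        rw [mem_insert, mem_insert] at hx
        rcases hx with rfl | rfl | hx
        · exact hv
        · exact mem_pl.2 ⟨hv2.1, by rw [hsym, card_singleton]⟩
        · obtain ⟨hx1, hx2⟩ := mem_pl.1 hx
          obtain ⟨hx3, hx4⟩ := mem_nb.1 hx1
          refine mem_pl.2 ⟨hx3, ?_⟩
          rw [← hx2]
          congr 1
          ext y
          rw [mem_mn, mem_mn, mem_nb]
          constructor
          · rintro ⟨hy1, hy2, hy3⟩
            refine ⟨⟨hy1, ?_⟩, hy2, hy3⟩
            by_contra hy4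
            by_cases hyv : y = v
            · rw [hyv] at hy3
              exact hy3 hx4.symm
            · have hy5 : y ∈ mn G S v := mem_mn.2 ⟨hy1, hyv, hy4⟩
              rw [hv', mem_singleton] at hy5
              rw [hy5] at hy3
              -- `x` is adjacent to `v'`
              have hx5 : x ∉ mn G S v' := by
                rw [hsym, mem_singleton]
                rintro rfl
                exact G.irrefl hx4
              apply hx5
              refine mem_mn.2 ⟨hx3, ?_, fun h => hy3 h.symm⟩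
              rintro rfl
              exact hv2.2.2 hx4
          · rintro ⟨⟨hy1, _⟩, hy2, hy3⟩
            exact ⟨hy1, hy2, hy3⟩
      have h3 := card_le_card hsub
      have hn1 : v' ∉ pl G (nb G S v) := by
        intro h4
        exact hv2.2.2 (mem_nb.1 (mem_pl.1 h4).1).2
      have hn2 : v ∉ insert v' (pl G (nb G S v)) := by
        rw [mem_insert]
        rintro (h4 | h4)
        · exact hv2.2.1 h4.symm
        · exact G.irrefl (mem_nb.1 (mem_pl.1 h4).1).2
      rw [card_insert_of_notMem hn2, card_insert_of_notMem hn1] at h3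
      omega
    · push Not at hp
      have hm : ∀ v ∈ S, 2 ≤ (mn G S v).card := by
        intro v hv
        have h1 := card_pos.2 (h.ne hv)
        have h2 : (mn G S v).card ≠ 1 := fun h2 => hp v (mem_pl.2 ⟨hv, h2⟩)
        omega
      obtain ⟨v, hv, h1⟩ := key h hm
      have h2 := (ih (nb G S v) (h.nb hv)).1
      have h3 := card_split (G := G) hv
      have h4 := hm v hv
      refine ⟨by omega, fun h5 _ => ?_⟩
      have := h5 v hv
      omega

end Pool.Agent.W5h83.FS
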