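import Pool.Agent.W5h83.FS.L2
import Pool.Agent.W5h83.FS.Top

/-!
# Flag homology spheres with few vertices: summary
-/

set_option autoImplicit false

namespace Pool.Agent.W5h83.FS

open Pool.Agent.W907.SG Pool.Agent.W907.SM Pool.Agent.TH652.Above

/-- vanishing in degree `i > n / 2` if there are at most `2 n + i` vertices -/
theorem above_few {n : ℕ} {V : Type} [Fintype V] [LinearOrder V] {G : SimpleGraph V} (hS : HSph n G)
    (A : Set V) [Fintype ↥A] (i : ℕ) (hi : n < 2 * i) (hc : Fintype.card V ≤ 2 * n + i) :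
    L2Van (G.induce A) i := by
  classical
  have h1 := main n (2 * i - 1) Finset.univ (sp_univ hS) (by omega)
    (by rw [Finset.card_univ]; omega) A.toFinset (Finset.subset_univ _) i (by omega)
  have h2 : LV (G.induce A) i := lv_set (by rw [Set.coe_toFinset]) h1
  exact h2 _ _

theorem few_arith {n N i : ℕ} (h : 2 * N ≤ 5 * n + 2) (hi : n < 2 * i) : N ≤ 2 * n + i := by omega

theorem singer_few {n : ℕ} {V : Type} [Fintype V] [LinearOrder V] {G : SimpleGraph V} (hS : HSph n G)
    (hc : 2 * Fintype.card V ≤ 5 * n + 2) (i : ℕ) (hi : 2 * i ≠ n) : L2Van G i := by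
  classical
  refine singer_of_above hS (fun j hj => ?_) i hi
  have h1 := main n (2 * j - 1) Finset.univ (sp_univ hS) (by omega)
    (by rw [Finset.card_univ]; omega) Finset.univ (Finset.subset_univ _) j (by omega)
  have h2 : LV (G.induce (Set.univ : Set V)) j := lv_set (by rw [Finset.coe_univ]) h1
  exact (lv_univ G j).1 h2 _ _

/-- the vertices with exactly one non-neighbour come in pairs; there are at least `10 n - 4 N` of them -/
theorem poles_few {n : ℕ} {V : Type} [Fintype V] [LinearOrder V] {G : SimpleGraph V} (hS : HSph n G) :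
    ∃ P : Finset V, 10 * n ≤ P.card + 4 * Fintype.card V ∧ ∀ v ∈ P, ∃ w, w ≠ v ∧ ¬ G.Adj v w ∧
      ∀ u, u ≠ v → u ≠ w → G.Adj u v ∧ G.Adj u w := by
  classical
  refine ⟨pl G Finset.univ, ?_, fun v hv => ?_⟩
  · have h1 := (bound n Finset.univ (sp_univ hS)).1
    rwa [Finset.card_univ] at h1
  · obtain ⟨hvS, hv1⟩ := mem_pl.1 hv
    obtain ⟨w, hw⟩ := Finset.card_eq_one.1 hv1
    have hw2 : w ∈ Finset.univ ∧ w ≠ v ∧ ¬ G.Adj v w := mem_mn.1 (hw ▸ Finset.mem_singleton_self w)
    have hsym : mn G Finset.univ w = {v} := sym_pole (sp_univ hS) hvS hw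
    refine ⟨w, hw2.2.1, hw2.2.2, fun u h3 h4 => ⟨?_, ?_⟩⟩
    · by_contra h5
      have h6 : u ∈ mn G Finset.univ v := mem_mn.2 ⟨Finset.mem_univ u, h3, fun h => h5 h.symm⟩
      rw [hw, Finset.mem_singleton] at h6
      exact h4 h6
    · by_contra h5
      have h6 : u ∈ mn G Finset.univ w := mem_mn.2 ⟨Finset.mem_univ u, h4, fun h => h5 h.symm⟩
      rw [hsym, Finset.mem_singleton] at h6
      exact h3 h6

end Pool.Agent.W5h83.FS
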